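import Mathlib
import Pool.Agent.Helper41.BrWeight
import Pool.Agent.Helper41.BrLin

set_option autoImplicit false

/-!
# MP_0ef3a5_an: the Brjuno condition is not necessary in several variables

For every `n ≥ 2` there is `λ ∈ (S¹)ⁿ` without resonances for which the Brjuno series diverges,
although every germ whose differential at the origin is diagonalizable with eigenvalues
`λ₁, …, λₙ` is holomorphically linearizable.
-/

open Finset Filter
open scoped Topology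

namespace Pool.Agent.Results.MP_0ef3a5_an.BrjunoNotNecessary

open Pool.Agent.Helper41.Br

/-- `λ ^ k = ∏ λ_i ^ k_i` -/
noncomputable def mpow {n : ℕ} (lam : Fin n → ℂ) (k : Fin n → ℕ) : ℂ := ∏ i, lam i ^ k i

/-- `Ω_λ(m)`, the minimum of `|λ^k - λ_j|` over `2 ≤ |k| ≤ m` and `j` with `λ^k ≠ λ_j`
(the infimum of a finite set). -/
noncomputable def Om {n : ℕ} (lam : Fin n → ℂ) (m : ℕ) : ℝ :=
  sInf {r : ℝ | ∃ (k : Fin n → ℕ) (j : Fin n), 2 ≤ ∑ i, k i ∧ ∑ i, k i ≤ m ∧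
    mpow lam k ≠ lam j ∧ r = ‖mpow lam k - lam j‖}

/-- `λ` has no resonances -/
def NonResonant {n : ℕ} (lam : Fin n → ℂ) : Prop :=
  ∀ (k : Fin n → ℕ) (j : Fin n), 2 ≤ ∑ i, k i → mpow lam k ≠ lam j

/-- The series in Brjuno's condition diverges (to `+∞`). -/
def BrjunoDiverges {n : ℕ} (lam : Fin n → ℂ) : Prop :=
  Tendsto (fun N : ℕ => ∑ p ∈ range N, (1 / 2 : ℝ) ^ p * Real.log (1 / Om lam (2 ^ (p + 1))))
    atTop atTop

/-- `f` is a germ at the origin of a holomorphic map fixing the origin. -/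
def IsGerm {n : ℕ} (f : (Fin n → ℂ) → (Fin n → ℂ)) : Prop := AnalyticAt ℂ f 0 ∧ f 0 = 0

/-- The linear map `A` is diagonalizable with eigenvalues `λ_1, …, λ_n`. -/
def DiagonalizableWith {n : ℕ} (A : (Fin n → ℂ) →L[ℂ] (Fin n → ℂ)) (lam : Fin n → ℂ) : Prop :=
  ∃ P : (Fin n → ℂ) ≃L[ℂ] (Fin n → ℂ), ∀ z, A (P z) = P (fun i => lam i * z i)

/-- `f` is holomorphically linearizable: there are germs `φ, ψ` of holomorphic maps fixing the
origin, inverse to each other, with `ψ ∘ f ∘ φ = df_O` near the origin. -/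
def HolLinearizable {n : ℕ} (f : (Fin n → ℂ) → (Fin n → ℂ)) : Prop :=
  ∃ φ ψ : (Fin n → ℂ) → (Fin n → ℂ), IsGerm φ ∧ IsGerm ψ ∧
    (∀ᶠ z in 𝓝 0, ψ (φ z) = z) ∧ (∀ᶠ z in 𝓝 0, φ (ψ z) = z) ∧
    ∀ᶠ z in 𝓝 0, ψ (f (φ z)) = fderiv ℂ f 0 z

/-! ### The eigenvalues -/

/-- the type of an index -/
def ty {n : ℕ} (i : Fin n) : Bool := decide (i.val ≠ 0)

/-- the eigenvalues -/
noncomputable def lamb (n : ℕ) : Fin n → ℂ := fun i => lb (ty i)

def sx {n : ℕ} (k : Fin n → ℕ) : ℤ := ∑ i, (k i : ℤ) * ex (ty i)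
def sy {n : ℕ} (k : Fin n → ℕ) : ℤ := ∑ i, (k i : ℤ) * ey (ty i)

lemma sx_nonneg {n : ℕ} (k : Fin n → ℕ) : 0 ≤ sx k :=
  sum_nonneg fun i _ => mul_nonneg (by positivity) (ex_nonneg _)

lemma sy_nonneg {n : ℕ} (k : Fin n → ℕ) : 0 ≤ sy k :=
  sum_nonneg fun i _ => mul_nonneg (by positivity) (ey_nonneg _)

lemma sx_add_sy {n : ℕ} (k : Fin n → ℕ) : sx k + sy k = ((∑ i, k i : ℕ) : ℤ) := by
  unfold sx sy
  rw [← sum_add_distrib]
  push_cast
  apply sum_congr rfl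
  intro i _
  rw [← mul_add, ex_add_ey, mul_one]

lemma ee_sum {ι : Type*} (s : Finset ι) (g : ι → ℝ) : ee (∑ i ∈ s, g i) = ∏ i ∈ s, ee (g i) := by
  classical
  induction s using Finset.induction_on with
  | empty => simp [ee_zero]
  | insert a s ha ih => rw [sum_insert ha, prod_insert ha, ee_add, ih]

lemma mpow_eq {n : ℕ} (k : Fin n → ℕ) : mpow (lamb n) k = ee (th (sx k) (sy k)) := by
  have h1 : th (sx k) (sy k) = ∑ i, (k i : ℝ) * th (ex (ty i)) (ey (ty i)) := by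
    unfold th sx sy
    push_cast
    rw [sum_mul, sum_mul, ← sum_add_distrib]
    apply sum_congr rfl
    intro i _
    ring
  rw [h1, ee_sum]
  unfold mpow lamb
  apply prod_congr rfl
  intro i _
  rw [lb_eq, ee_nat_mul]

lemma lamb_norm (n : ℕ) (j : Fin n) : ‖lamb n j‖ = 1 := norm_lb _

lemma lamb_nonres (n : ℕ) : NonResonant (lamb n) := by
  intro k j hk
  rw [mpow_eq]
  have h := sx_add_sy k
  exact nonres _ _ _ (sx_nonneg k) (sy_nonneg k) (by rw [h]; exact_mod_cast hk)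

lemma good (n : ℕ) : Good (lamb n) (fun k => KK (sx k) (sy k)) (51 * Real.log 2) where
  le_one := fun j => (lamb_norm n j).le
  K_zero := by
    have h1 : sx ((0 : Fin n →₀ ℕ) : Fin n → ℕ) = 0 := by simp [sx]
    have h2 : sy ((0 : Fin n →₀ ℕ) : Fin n → ℕ) = 0 := by simp [sy]
    show KK (sx ((0 : Fin n →₀ ℕ) : Fin n → ℕ)) (sy ((0 : Fin n →₀ ℕ) : Fin n → ℕ)) = 0
    rw [h1, h2, KK_zero]
  K_nonneg := fun k => KK_nonneg _ _
  K_le := by
    intro k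
    have h := sx_add_sy (k : Fin n → ℕ)
    have h2 := KK_le _ _ (sx_nonneg (k : Fin n → ℕ)) (sy_nonneg (k : Fin n → ℕ))
    have h3 : (sx (k : Fin n → ℕ) : ℝ) + sy (k : Fin n → ℕ) = k.degree := by
      rw [Finsupp.degree_eq_sum]
      exact_mod_cast h
    rw [h3] at h2
    exact h2
  K_add := by
    intro p q
    have h1 : sx ((p + q : Fin n →₀ ℕ) : Fin n → ℕ) = sx (p : Fin n → ℕ) + sx (q : Fin n → ℕ) := by
      unfold sx
      rw [← sum_add_distrib]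
      apply sum_congr rfl
      intro i _
      rw [Finsupp.add_apply]; push_cast; ring
    have h2 : sy ((p + q : Fin n →₀ ℕ) : Fin n → ℕ) = sy (p : Fin n → ℕ) + sy (q : Fin n → ℕ) := by
      unfold sy
      rw [← sum_add_distrib]
      apply sum_congr rfl
      intro i _
      rw [Finsupp.add_apply]; push_cast; ring
    rw [h1, h2]
    exact KK_add _ _ _ _ (sx_nonneg _) (sy_nonneg _) (sx_nonneg _) (sy_nonneg _)
  nonres := by
    intro k hk j
    rw [Finsupp.degree_eq_sum] at hk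
    exact lamb_nonres n (k : Fin n → ℕ) j hk
  K_div := by
    intro j p q hp hq
    have h1 : sx ((p + q : Fin n →₀ ℕ) : Fin n → ℕ) = sx (p : Fin n → ℕ) + sx (q : Fin n → ℕ) := by
      unfold sx
      rw [← sum_add_distrib]
      apply sum_congr rfl
      intro i _
      rw [Finsupp.add_apply]; push_cast; ring
    have h2 : sy ((p + q : Fin n →₀ ℕ) : Fin n → ℕ) = sy (p : Fin n → ℕ) + sy (q : Fin n → ℕ) := by
      unfold sy
      rw [← sum_add_distrib]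
      apply sum_congr rfl
      intro i _
      rw [Finsupp.add_apply]; push_cast; ring
    have h3 : mon (lamb n) (p + q) = ee (th (sx ((p + q : Fin n →₀ ℕ) : Fin n → ℕ))
      (sy ((p + q : Fin n →₀ ℕ) : Fin n → ℕ))) := mpow_eq _
    have hp1 : 1 ≤ sx (p : Fin n → ℕ) + sy (p : Fin n → ℕ) := by
      rw [sx_add_sy, ← Finsupp.degree_eq_sum]
      exact_mod_cast degree_pos hp
    have hq1 : 1 ≤ sx (q : Fin n → ℕ) + sy (q : Fin n → ℕ) := by
      rw [sx_add_sy, ← Finsupp.degree_eq_sum]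
      exact_mod_cast degree_pos hq
    have h4 := KK_w _ _ _ _ (ty j) (sx_nonneg (p : Fin n → ℕ)) (sy_nonneg (p : Fin n → ℕ))
      (sx_nonneg (q : Fin n → ℕ)) (sy_nonneg (q : Fin n → ℕ)) hp1 hq1
    rw [h3, h1, h2]
    have h5 : -Real.log ‖ee (th (sx (p : Fin n → ℕ) + sx (q : Fin n → ℕ))
        (sy (p : Fin n → ℕ) + sy (q : Fin n → ℕ))) - lamb n j‖ ≤
        w (sx (p : Fin n → ℕ) + sx (q : Fin n → ℕ)) (sy (p : Fin n → ℕ) + sy (q : Fin n → ℕ)) (ty j) :=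
      le_max_right _ _
    show KK _ _ + KK _ _ - _ ≤ KK _ _
    linarith

/-! ### Divergence of the Brjuno series -/

lemma Om_set_finite {n : ℕ} (lam : Fin n → ℂ) (m : ℕ) :
    {r : ℝ | ∃ (k : Fin n → ℕ) (j : Fin n), 2 ≤ ∑ i, k i ∧ ∑ i, k i ≤ m ∧
    mpow lam k ≠ lam j ∧ r = ‖mpow lam k - lam j‖}.Finite := by
  have h1 : {k : Fin n → ℕ | ∑ i, k i ≤ m}.Finite := by
    apply Set.Finite.subset (Fintype.piFinset (fun _ : Fin n => range (m + 1))).finite_toSet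
    intro k hk
    rw [mem_coe, Fintype.mem_piFinset]
    intro i
    rw [mem_range]
    have h2 : k i ≤ ∑ i, k i := single_le_sum (f := k) (fun i _ => Nat.zero_le _) (mem_univ i)
    have h3 : ∑ i, k i ≤ m := hk
    omega
  have h2 : ((fun x : (Fin n → ℕ) × Fin n => ‖mpow lam x.1 - lam x.2‖) ''
      ({k : Fin n → ℕ | ∑ i, k i ≤ m} ×ˢ Set.univ)).Finite := (h1.prod Set.finite_univ).image _
  apply h2.subset
  rintro r ⟨k, j, _, h4, _, rfl⟩
  exact ⟨(k, j), ⟨h4, Set.mem_univ _⟩, rfl⟩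

lemma Om_le {n : ℕ} (lam : Fin n → ℂ) (m : ℕ) (k : Fin n → ℕ) (j : Fin n) (h2 : 2 ≤ ∑ i, k i)
    (hm : ∑ i, k i ≤ m) (hne : mpow lam k ≠ lam j) : Om lam m ≤ ‖mpow lam k - lam j‖ :=
  csInf_le (Om_set_finite lam m).bddBelow ⟨k, j, h2, hm, hne, rfl⟩

lemma Om_pos {n : ℕ} (lam : Fin n → ℂ) (m : ℕ) (k : Fin n → ℕ) (j : Fin n) (h2 : 2 ≤ ∑ i, k i)
    (hm : ∑ i, k i ≤ m) (hne : mpow lam k ≠ lam j) : 0 < Om lam m := by
  have h1 : Set.Nonempty {r : ℝ | ∃ (k : Fin n → ℕ) (j : Fin n), 2 ≤ ∑ i, k i ∧ ∑ i, k i ≤ m ∧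
    mpow lam k ≠ lam j ∧ r = ‖mpow lam k - lam j‖} := ⟨_, k, j, h2, hm, hne, rfl⟩
  obtain ⟨k', j', _, _, h5, h6⟩ := h1.csInf_mem (Om_set_finite lam m)
  unfold Om
  rw [h6]
  exact norm_pos_iff.mpr (sub_ne_zero.mpr h5)

/-- the near resonances -/
def kk {n : ℕ} (s : ℕ) (i : Fin n) : ℕ := if i.val = 0 then mm s + 1 else if i.val = 1 then 2 else 0

lemma kk_spec {n : ℕ} (hn : 2 ≤ n) (s : ℕ) : ∑ i : Fin n, kk s i = mm s + 3 ∧
    sx (kk (n := n) s) = mm s + 1 ∧ sy (kk (n := n) s) = 2 := by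
  obtain ⟨n, rfl⟩ : ∃ n', n = n' + 2 := ⟨n - 2, by omega⟩
  refine ⟨?_, ?_, ?_⟩
  · rw [Fin.sum_univ_succ, Fin.sum_univ_succ]
    simp [kk]
  · unfold sx
    rw [Fin.sum_univ_succ, Fin.sum_univ_succ]
    simp [kk, ty, ex]
  · unfold sy
    rw [Fin.sum_univ_succ, Fin.sum_univ_succ]
    simp [kk, ty, ey]

lemma near (s : ℕ) : ‖ee (th ((mm s : ℤ) + 1) 2) - lb false‖ ^ 2 * 2 ^ mm s ≤ 1 := by
  rw [ee_th_sub_lb]
  have e1 : ((mm s : ℤ) + 1 - ex false) = mm s := by simp [ex]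
  have e2 : ((2 : ℤ) - ey false) = 2 := by simp [ey]
  rw [e1, e2]
  have h1 := th_tail (mm s) 2 s
  rw [sum_tm] at h1
  have h2 : (AA (mm s) 2 s : ℝ) / (2 * QQ s) = ((UU s : ℤ) : ℝ) := by
    have := QQ_pos' s
    unfold AA
    push_cast
    field_simp
    ring
  rw [h2] at h1
  have h3 : ee (th (mm s) 2) = ee (th (mm s) 2 - ((UU s : ℤ) : ℝ)) := by
    have : ee (th (mm s) 2) = ee (th (mm s) 2 - ((UU s : ℤ) : ℝ)) * ee ((UU s : ℤ) : ℝ) := by
      rw [← ee_add]; congr 1; ring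
    rw [this, ee_int, mul_one]
  rw [h3]
  have h4 := norm_ee_sub_one_le (th (mm s) 2 - ((UU s : ℤ) : ℝ))
  have h5 : |(((mm s : ℤ)) : ℝ)| + |((2 : ℤ) : ℝ)| = mm s + 2 := by
    rw [abs_of_nonneg (by positivity)]; norm_num
  rw [h5] at h1
  have h6 : (4 : ℝ) * mm s ≤ QQ s := by exact_mod_cast mm_le_QQ s
  have h7 : (1024 : ℝ) ≤ QQ s := by exact_mod_cast QQ_ge s
  have h8 : (QQ s : ℝ) ^ 4 ≤ 2 ^ mm s := by exact_mod_cast QQ4_le s
  have hpos : (0 : ℝ) < 2 ^ mm s := by positivity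
  have h9 : ‖ee (th (mm s) 2 - ((UU s : ℤ) : ℝ)) - 1‖ ≤ (QQ s : ℝ) ^ 2 / 2 ^ mm s := by
    refine h4.trans ?_
    calc 7 * |th (mm s) 2 - ((UU s : ℤ) : ℝ)| ≤ 7 * ((mm s + 2) * ((5 / 2) / 2 ^ mm s)) := by linarith
      _ = (7 * ((mm s + 2) * (5 / 2))) / 2 ^ mm s := by ring
      _ ≤ _ := by
        apply div_le_div_of_nonneg_right _ hpos.le
        nlinarith
  have h10 : ‖ee (th (mm s) 2 - ((UU s : ℤ) : ℝ)) - 1‖ ^ 2 ≤ ((QQ s : ℝ) ^ 2 / 2 ^ mm s) ^ 2 :=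
    pow_le_pow_left₀ (norm_nonneg _) h9 2
  calc ‖ee (th (mm s) 2 - ((UU s : ℤ) : ℝ)) - 1‖ ^ 2 * 2 ^ mm s
      ≤ ((QQ s : ℝ) ^ 2 / 2 ^ mm s) ^ 2 * 2 ^ mm s := mul_le_mul_of_nonneg_right h10 hpos.le
    _ = (QQ s : ℝ) ^ 4 / 2 ^ mm s := by field_simp
    _ ≤ 1 := by rw [div_le_one hpos]; exact h8

lemma log_Om_ge {n : ℕ} (hn : 2 ≤ n) (s m : ℕ) (hm : mm s + 3 ≤ m) :
    (mm s : ℝ) / 2 * Real.log 2 ≤ Real.log (1 / Om (lamb n) m) := by
  obtain ⟨h1, h2, h3⟩ := kk_spec hn s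
  have hne := lamb_nonres n (kk s) ⟨0, by omega⟩ (by rw [h1]; omega)
  have h4 := Om_le (lamb n) m (kk s) ⟨0, by omega⟩ (by rw [h1]; omega) (by rw [h1]; exact hm) hne
  have h5 := Om_pos (lamb n) m (kk s) ⟨0, by omega⟩ (by rw [h1]; omega) (by rw [h1]; exact hm) hne
  have h6 : ‖mpow (lamb n) (kk s) - lamb n ⟨0, by omega⟩‖ ^ 2 * 2 ^ mm s ≤ 1 := by
    rw [mpow_eq, h2, h3]
    exact near s
  have h7 : Om (lamb n) m ^ 2 * 2 ^ mm s ≤ 1 := by
    refine le_trans ?_ h6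
    gcongr
  have h8 : Real.log (Om (lamb n) m ^ 2 * 2 ^ mm s) ≤ 0 :=
    Real.log_nonpos (by positivity) h7
  rw [Real.log_mul (by positivity) (by positivity), Real.log_pow, Real.log_pow] at h8
  rw [one_div, Real.log_inv]
  push_cast at h8
  linarith

lemma diverges {n : ℕ} (hn : 2 ≤ n) : BrjunoDiverges (lamb n) := by
  have hl2 : 0 < Real.log 2 := Real.log_pos (by norm_num)
  set b : ℕ → ℝ := fun p => (1 / 2 : ℝ) ^ p * Real.log (1 / Om (lamb n) (2 ^ (p + 1))) with hb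
  have hpn : ∀ s p, Nat.log 2 (mm s + 3) ≤ p →
      (mm s : ℝ) / 2 * Real.log 2 ≤ Real.log (1 / Om (lamb n) (2 ^ (p + 1))) := by
    intro s p hp
    apply log_Om_ge hn
    have h1 : mm s + 3 < 2 ^ (Nat.log 2 (mm s + 3) + 1) := Nat.lt_pow_succ_log_self (by norm_num) _
    have h2 : 2 ^ (Nat.log 2 (mm s + 3) + 1) ≤ 2 ^ (p + 1) := Nat.pow_le_pow_right (by norm_num) (by omega)
    omega
  set p0 := Nat.log 2 (mm 0 + 3) with hp0
  have hnonneg : ∀ p, 0 ≤ b (p + p0) := by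
    intro p
    have h1 := hpn 0 (p + p0) (by omega)
    have h2 : (0 : ℝ) ≤ (mm 0 : ℝ) / 2 * Real.log 2 := by positivity
    simp only [hb]
    exact mul_nonneg (by positivity) (h2.trans h1)
  have hbig : ∀ s, (1 / 4) * Real.log 2 ≤ b (Nat.log 2 (mm s + 3)) := by
    intro s
    have h1 := hpn s _ le_rfl
    have h2 : 2 ^ Nat.log 2 (mm s + 3) ≤ mm s + 3 := Nat.pow_log_le_self 2 (by omega)
    have h2' : (2 : ℝ) ^ Nat.log 2 (mm s + 3) ≤ mm s + 3 := by exact_mod_cast h2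
    have h3 := mm_pos' s
    have e0 : (1 / 2 : ℝ) ^ Nat.log 2 (mm s + 3) = ((2 : ℝ) ^ Nat.log 2 (mm s + 3))⁻¹ := by
      rw [one_div, inv_pow]
    simp only [hb]
    rw [e0]
    calc (1 / 4) * Real.log 2 ≤ ((mm s : ℝ) + 3)⁻¹ * ((mm s : ℝ) / 2 * Real.log 2) := by
          rw [← one_div, ← mul_assoc]
          apply mul_le_mul_of_nonneg_right _ hl2.le
          rw [one_div_mul_eq_div, le_div_iff₀ (by positivity)]
          linarith
      _ ≤ ((2 : ℝ) ^ Nat.log 2 (mm s + 3))⁻¹ * ((mm s : ℝ) / 2 * Real.log 2) := by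
          apply mul_le_mul_of_nonneg_right _ (by positivity)
          exact inv_anti₀ (by positivity) h2'
      _ ≤ _ := mul_le_mul_of_nonneg_left h1 (by positivity)
  have hns : ¬ Summable (fun p => b (p + p0)) := by
    intro hs
    have h1 : Tendsto b atTop (𝓝 0) := by
      have := hs.tendsto_atTop_zero
      rwa [tendsto_add_atTop_iff_nat (f := b) p0] at this
    have h2 : ∀ᶠ p in atTop, b p < (1 / 4) * Real.log 2 :=
      h1.eventually (gt_mem_nhds (by positivity))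
    obtain ⟨N, hN⟩ := eventually_atTop.mp h2
    have h3 : N ≤ Nat.log 2 (mm (2 ^ N) + 3) := by
      apply Nat.le_log_of_pow_le (by norm_num)
      have := mm_ge (2 ^ N)
      omega
    have h4 := hN _ h3
    linarith [hbig (2 ^ N)]
  have h5 := (not_summable_iff_tendsto_nat_atTop_of_nonneg hnonneg).mp hns
  have h6 : Tendsto (fun N : ℕ => ∑ p ∈ range (N + p0), b p) atTop atTop := by
    have h7 : ∀ N : ℕ, ∑ p ∈ range (N + p0), b p = ∑ p ∈ range p0, b p + ∑ p ∈ range N, b (p + p0) := by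
      intro N
      rw [add_comm N p0, sum_range_add]
      congr 1
      apply sum_congr rfl
      intro i _
      rw [add_comm]
    simp_rw [h7]
    exact tendsto_atTop_add_const_left _ _ h5
  exact (tendsto_add_atTop_iff_nat (f := fun N => ∑ p ∈ range N, b p) p0).mp h6

/-- **The Brjuno condition is not necessary in dimension `n ≥ 2`.** -/
theorem result (n : ℕ) (hn : 2 ≤ n) : ∃ lam : Fin n → ℂ, (∀ j, ‖lam j‖ = 1) ∧ NonResonant lam ∧
    BrjunoDiverges lam ∧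
    ∀ f : (Fin n → ℂ) → (Fin n → ℂ), IsGerm f → DiagonalizableWith (fderiv ℂ f 0) lam →
      HolLinearizable f := by
  refine ⟨lamb n, lamb_norm n, lamb_nonres n, diverges hn, ?_⟩
  rintro f ⟨hf, hf0⟩ ⟨P, hP⟩
  obtain ⟨φ, ψ, h1, h2, h3, h4, h5, h6, _, h7⟩ := lin (good n) f hf hf0 P hP
  exact ⟨φ, ψ, ⟨h1, h3⟩, ⟨h2, h4⟩, h5, h6, h7⟩

end Pool.Agent.Results.MP_0ef3a5_an.BrjunoNotNecessary
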